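import Mathlib

set_option autoImplicit false

namespace Pool.SpA57

open SimpleGraph

variable {V : Type*}

lemma dist_root {G : SimpleGraph V} (hG : G.IsAcyclic) {r v : V} (hr : G.Reachable r v)
    (P : G.Walk r v) (hP : P.IsPath) : P.length = G.dist r v := by
  obtain ⟨Q, hQ, hQ'⟩ := hr.exists_path_of_dist
  rw [← hQ']
  have := (hG.subsingleton_path r v).elim ⟨P, hP⟩ ⟨Q, hQ⟩
  rw [Subtype.mk.inj this]

lemma parent_pen {G : SimpleGraph V} (hG : G.IsAcyclic) {r v w : V} (hr : G.Reachable r v)
    (h : G.Adj v w) (hd : G.dist r v = G.dist r w + 1) (P : G.Walk r v) (hP : P.IsPath) :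
    w = P.penultimate := by
  by_cases hw : w ∈ P.support
  · exact hG.eq_penultimate_of_adj_end hP h hw
  · exfalso
    have h1 := dist_root hG (hr.trans h.reachable) _ (hP.concat hw h)
    have h2 := dist_root hG hr P hP
    rw [Walk.length_concat] at h1
    omega

lemma parent_unique {G : SimpleGraph V} (hG : G.IsAcyclic) {r v w w' : V} (hr : G.Reachable r v)
    (h : G.Adj v w) (h' : G.Adj v w') (hd : G.dist r v = G.dist r w + 1)
    (hd' : G.dist r v = G.dist r w' + 1) : w = w' := by
  obtain ⟨P, hP, -⟩ := hr.exists_path_of_dist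
  rw [parent_pen hG hr h hd P hP, parent_pen hG hr h' hd' P hP]

lemma exists_parent_one {G : SimpleGraph V} {r v : V} (hr : G.Reachable r v)
    (hne : r ≠ v) : ∃ w, G.Adj v w ∧ G.dist r v = G.dist r w + 1 := by
  obtain ⟨P, hP⟩ := hr.symm.exists_walk_length_eq_dist
  cases P with
  | nil => exact absurd rfl hne
  | cons h Q =>
    rename_i w
    refine ⟨w, h, ?_⟩
    rw [Walk.length_cons] at hP
    have h1 : G.dist w r ≤ Q.length := dist_le Q
    have h2 : G.dist v r ≤ G.dist w r + 1 := by
      obtain ⟨Q', hQ'⟩ := (Q.reachable).exists_walk_length_eq_dist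
      have := dist_le (Walk.cons h Q')
      rw [Walk.length_cons] at this
      omega
    rw [G.dist_comm (u := r) (v := v), G.dist_comm (u := r) (v := w)]
    omega

/-- the parent function of a rooted forest -/
theorem exists_parent {G : SimpleGraph V} (hG : G.IsAcyclic) (r : V → V)
    (hr : ∀ v, G.Reachable (r v) v) (hc : ∀ v w, G.Adj v w → r v = r w) :
    ∃ p : V → V, (∀ v, p v = v ↔ v = r v) ∧
      (∀ v, v ≠ r v → G.dist (r v) v = G.dist (r (p v)) (p v) + 1) ∧
      (∀ v, v ≠ r v → G.Adj v (p v)) ∧
      (∀ v w, G.Adj v w → p v = w ∨ p w = v) := by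
  classical
  have hex : ∀ v, v ≠ r v → ∃ w, G.Adj v w ∧ G.dist (r v) v = G.dist (r v) w + 1 :=
    fun v hv => exists_parent_one (hr v) (Ne.symm hv)
  choose! p hp1 hp2 using hex
  refine ⟨fun v => if v = r v then v else p v, ?_, ?_, ?_, ?_⟩
  · intro v
    by_cases hv : v = r v
    · simp only [if_pos hv]
      exact ⟨fun _ => hv, fun _ => trivial⟩
    · simp only [if_neg hv]
      exact ⟨fun h => absurd h (hp1 v hv).ne', fun h => absurd h hv⟩
  · intro v hv
    simp only [if_neg hv]
    rw [← hc v (p v) (hp1 v hv)]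
    exact hp2 v hv
  · intro v hv
    simp only [if_neg hv]
    exact hp1 v hv
  · intro v w h
    have hrr := hc v w h
    have h0 : G.Reachable (r v) w := (hr v).trans h.reachable
    rcases hG.dist_eq_dist_add_one_of_adj_of_reachable (r v) h (hr v) with h1 | h1
    · left
      have hv : v ≠ r v := by
        intro hv
        rw [← hv, SimpleGraph.dist_self] at h1
        omega
      simp only [if_neg hv]
      exact parent_unique hG (hr v) (hp1 v hv) h (hp2 v hv) h1
    · right
      have hw : w ≠ r w := by
        intro hw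
        rw [hrr, ← hw, SimpleGraph.dist_self] at h1
        omega
      simp only [if_neg hw]
      refine parent_unique hG (hr w) (hp1 w hw) h.symm (hp2 w hw) ?_
      rw [← hrr]
      exact h1

end Pool.SpA57
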