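import Mathlib
import Pool.Agent.SpA57.Parent

set_option autoImplicit false

namespace Pool.SpA57

open SimpleGraph

variable {V : Type*}

/-- a spider forest: an acyclic graph such that every connected component has a vertex of degree at
least two (that is, at least two edges) and at most one vertex of degree at least three -/
structure IsSpiderForest (G : SimpleGraph V) : Prop where
  acyclic : G.IsAcyclic
  edges : ∀ v, ∃ w, G.Reachable v w ∧ 2 ≤ (G.neighborSet w).ncard
  centre : ∀ v w, G.Reachable v w → 3 ≤ (G.neighborSet v).ncard →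
    3 ≤ (G.neighborSet w).ncard → v = w

/-- rooted form of a spider forest: parent function and depth -/
structure Rooted (G : SimpleGraph V) (p : V → V) (dep : V → ℕ) : Prop where
  root : ∀ v, p v = v ↔ dep v = 0
  step : ∀ v, p v ≠ v → dep v = dep (p v) + 1
  adj : ∀ v w, G.Adj v w ↔ v ≠ w ∧ (p v = w ∨ p w = v)
  inj : ∀ v w, p v ≠ v → p w ≠ w → p v = p w → p (p v) ≠ p v → v = w
  child : ∀ c, p c = c → ∃ v w, v ≠ w ∧ v ≠ c ∧ w ≠ c ∧ p v = c ∧ p w = c

lemma exists_centre {G : SimpleGraph V} (h : IsSpiderForest G) (C : G.ConnectedComponent) :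
    ∃ c : V, G.connectedComponentMk c = C ∧ 2 ≤ (G.neighborSet c).ncard ∧
      ∀ w, G.Reachable c w → w ≠ c → (G.neighborSet w).ncard ≤ 2 := by
  induction C using ConnectedComponent.ind with
  | h v =>
    by_cases h3 : ∃ c, G.Reachable v c ∧ 3 ≤ (G.neighborSet c).ncard
    · obtain ⟨c, hvc, hc⟩ := h3
      refine ⟨c, ConnectedComponent.sound hvc.symm, by omega, ?_⟩
      intro w hcw hne
      by_contra hw
      exact hne (h.centre w c hcw.symm (by omega) hc)
    · push Not at h3
      obtain ⟨c, hvc, hc⟩ := h.edges v
      refine ⟨c, ConnectedComponent.sound hvc.symm, hc, ?_⟩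
      intro w hcw hne
      have := h3 w (hvc.trans hcw)
      omega

/-- every finite spider forest has a rooted form -/
theorem exists_rooted [Finite V] {G : SimpleGraph V} (h : IsSpiderForest G) :
    ∃ (p : V → V) (dep : V → ℕ), Rooted G p dep := by
  classical
  choose ρ hρ1 hρ2 hρ3 using exists_centre h
  set r : V → V := fun v => ρ (G.connectedComponentMk v) with hrd
  have hr : ∀ v, G.Reachable (r v) v := fun v => ConnectedComponent.exact (hρ1 _)
  have hc : ∀ v w, G.Adj v w → r v = r w := by
    intro v w hvw
    have : G.connectedComponentMk v = G.connectedComponentMk w :=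
      ConnectedComponent.sound hvw.reachable
    rw [hrd]
    simp only
    rw [this]
  have hrr : ∀ v, r (r v) = r v := by
    intro v
    have : G.connectedComponentMk (r v) = G.connectedComponentMk v := hρ1 _
    rw [hrd] at this ⊢
    simp only at this ⊢
    rw [this]
  obtain ⟨p, hp1, hp2, hp3, hp4⟩ := exists_parent h.acyclic r hr hc
  have hadj : ∀ v w, G.Adj v w ↔ v ≠ w ∧ (p v = w ∨ p w = v) := by
    intro v w
    constructor
    · intro hvw
      exact ⟨hvw.ne, hp4 v w hvw⟩
    · rintro ⟨hne, h1 | h1⟩
      · have : v ≠ r v := by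
          intro hv
          rw [(hp1 v).2 hv] at h1
          exact hne h1
        rw [← h1]
        exact hp3 v this
      · have : w ≠ r w := by
          intro hw
          rw [(hp1 w).2 hw] at h1
          exact hne h1.symm
        rw [← h1]
        exact (hp3 w this).symm
  refine ⟨p, fun v => G.dist (r v) v, ?_, ?_, hadj, ?_, ?_⟩
  · intro v
    rw [hp1 v, (hr v).dist_eq_zero_iff]
    exact eq_comm
  · intro v hv
    exact hp2 v (fun h => hv ((hp1 v).2 h))
  · intro v w hv hw hvw hx
    by_contra hne
    set x := p v with hxd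
    have hdx : G.dist (r x) x = G.dist (r (p x)) (p x) + 1 := hp2 x (fun h => hx ((hp1 x).2 h))
    have hdv : G.dist (r v) v = G.dist (r x) x + 1 := hp2 v (fun h => hv ((hp1 v).2 h))
    have hdw : G.dist (r w) w = G.dist (r x) x + 1 := by
      have := hp2 w (fun h => hw ((hp1 w).2 h))
      rwa [← hvw] at this
    have h1 : p x ∈ G.neighborSet x := hp3 x (fun h => hx ((hp1 x).2 h))
    have h2 : v ∈ G.neighborSet x := (hp3 v (fun h => hv ((hp1 v).2 h))).symm
    have h3 : w ∈ G.neighborSet x := by
      have := (hp3 w (fun h => hw ((hp1 w).2 h))).symm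
      rwa [← hvw] at this
    have h4 : p x ≠ v := by
      intro hh
      rw [hh] at hdx
      omega
    have h5 : p x ≠ w := by
      intro hh
      rw [hh] at hdx
      omega
    have h6 : ({p x, v, w} : Set V).ncard = 3 := by
      rw [Set.ncard_eq_three]
      exact ⟨p x, v, w, h4, h5, hne, rfl⟩
    have h7 : ({p x, v, w} : Set V) ⊆ G.neighborSet x := by
      intro y hy
      rcases hy with rfl | rfl | rfl
      · exact h1
      · exact h2
      · exact h3
    have h8 := Set.ncard_le_ncard h7 (Set.toFinite _)
    have hxr : x ≠ r x := fun h => hx ((hp1 x).2 h)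
    have h9 := hρ3 (G.connectedComponentMk x) x (hr x) hxr
    omega
  · intro c hcc
    have hcr : c = r c := (hp1 c).1 hcc
    have h1 : 2 ≤ (G.neighborSet c).ncard := by
      have := hρ2 (G.connectedComponentMk c)
      rw [show ρ (G.connectedComponentMk c) = c from hcr.symm] at this
      exact this
    obtain ⟨v, hv, w, hw, hne⟩ := (Set.one_lt_ncard (Set.toFinite _)).1 h1
    have hv' : G.Adj c v := hv
    have hw' : G.Adj c w := hw
    have key : ∀ u, G.Adj c u → p u = c := by
      intro u hu
      rcases hp4 c u hu with h2 | h2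
      · exact absurd (hcc.symm.trans h2) hu.ne
      · exact h2
    exact ⟨v, w, hne, hv'.ne', hw'.ne', key v hv', key w hw'⟩

end Pool.SpA57
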