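import Mathlib
import Pool.Agent.SpA57.Rooted

set_option autoImplicit false

namespace Pool.SpA57

open SimpleGraph Finset Classical

/-- a graph with a depth function such that every vertex has at most one neighbour which is not
deeper is acyclic -/
lemma acyclic_of_depth {V : Type*} {G : SimpleGraph V} (d : V → ℕ)
    (h : ∀ v w w', G.Adj v w → G.Adj v w' → d w ≤ d v → d w' ≤ d v → w = w') : G.IsAcyclic := by
  intro v c hc
  obtain ⟨u, hu, hmax⟩ : ∃ u ∈ c.support, ∀ x ∈ c.support, d x ≤ d u := by
    have hne : c.support.toFinset.Nonempty := ⟨v, by simp⟩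
    obtain ⟨u, hu, hm⟩ := c.support.toFinset.exists_max_image d hne
    exact ⟨u, by simpa using hu, fun x hx => hm x (by simpa using hx)⟩
  set c' := c.rotate u hu with hc'
  have hcc : c'.IsCycle := (Walk.isCycle_rotate hu).2 hc
  have hsup : ∀ x, x ∈ c'.support → x ∈ c.support := by
    intro x hx
    exact (Walk.mem_support_rotate_iff c u hu).1 hx
  have hnn : ¬ c'.Nil := hcc.not_nil
  have h1 : G.Adj u c'.snd := c'.adj_snd hnn
  have h2 : G.Adj u c'.penultimate := (c'.adj_penultimate hnn).symm
  have h3 : d c'.snd ≤ d u := hmax _ (hsup _ (Walk.getVert_mem_support _ _))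
  have h4 : d c'.penultimate ≤ d u := hmax _ (hsup _ (Walk.getVert_mem_support _ _))
  exact hcc.snd_ne_penultimate (h u _ _ h1 h2 h3 h4)

/-- Hamilton path with positions `σ` -/
def pathOf {n : ℕ} (σ : Equiv.Perm (Fin n)) : SimpleGraph (Fin n) := (pathGraph n).comap σ

lemma pathOf_adj {n : ℕ} (σ : Equiv.Perm (Fin n)) (v w : Fin n) :
    (pathOf σ).Adj v w ↔ (σ v).val + 1 = (σ w).val ∨ (σ w).val + 1 = (σ v).val := by
  unfold pathOf
  rw [comap_adj, pathGraph_adj]

lemma spider_pathOf {n : ℕ} (hn : 3 ≤ n) (σ : Equiv.Perm (Fin n)) : IsSpiderForest (pathOf σ) := by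
  refine ⟨?_, ?_, ?_⟩
  · apply acyclic_of_depth (fun v => (σ v).val)
    intro v w w' h h' hd hd'
    rw [pathOf_adj] at h h'
    apply σ.injective
    apply Fin.ext
    omega
  · intro v
    refine ⟨σ.symm ⟨1, by omega⟩, ?_, ?_⟩
    · have hc : (pathOf σ).Preconnected := by
        have h1 := pathGraph_preconnected n
        exact (SimpleGraph.Iso.comap σ (pathGraph n)).preconnected_iff.2 h1
      exact hc _ _
    · have h2 : ({σ.symm ⟨0, by omega⟩, σ.symm ⟨2, by omega⟩} : Set (Fin n)) ⊆
          (pathOf σ).neighborSet (σ.symm ⟨1, by omega⟩) := by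
        rintro x (rfl | rfl)
        · rw [mem_neighborSet, pathOf_adj]
          simp
        · rw [mem_neighborSet, pathOf_adj]
          simp
      have h3 : ({σ.symm ⟨0, by omega⟩, σ.symm ⟨2, by omega⟩} : Set (Fin n)).ncard = 2 := by
        apply Set.ncard_pair
        intro h
        have := congrArg Fin.val (σ.symm.injective h)
        simp at this
      rw [← h3]
      exact Set.ncard_le_ncard h2 (Set.toFinite _)
  · intro v w _ hv _
    exfalso
    have h1 : (σ '' ((pathOf σ).neighborSet v)).ncard = ((pathOf σ).neighborSet v).ncard :=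
      Set.ncard_image_of_injective _ σ.injective
    have h2 : (Fin.val '' (σ '' ((pathOf σ).neighborSet v))).ncard =
        (σ '' ((pathOf σ).neighborSet v)).ncard :=
      Set.ncard_image_of_injective _ Fin.val_injective
    have h3 : (Fin.val '' (σ '' ((pathOf σ).neighborSet v))) ⊆ {(σ v).val + 1, (σ v).val - 1} := by
      rintro _ ⟨_, ⟨x, hx, rfl⟩, rfl⟩
      rw [mem_neighborSet, pathOf_adj] at hx
      simp only [Set.mem_insert_iff, Set.mem_singleton_iff]
      omega
    have h4 := Set.ncard_le_ncard h3 (Set.toFinite _)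
    have h5 : ({(σ v).val + 1, (σ v).val - 1} : Set ℕ).ncard ≤ 2 := by
      refine (Set.ncard_insert_le _ _).trans ?_
      rw [Set.ncard_singleton]
    omega

lemma pathOf_inj {n : ℕ} (hn : 0 < n) (σ τ : Equiv.Perm (Fin n)) (h : pathOf σ = pathOf τ)
    (h0 : σ.symm ⟨0, hn⟩ = τ.symm ⟨0, hn⟩) : σ = τ := by
  have key : ∀ k : ℕ, ∀ j, ∀ hj : j < n, j ≤ k → σ.symm ⟨j, hj⟩ = τ.symm ⟨j, hj⟩ := by
    intro k
    induction k with
    | zero =>
      intro j hj hj0
      obtain rfl : j = 0 := by omega
      exact h0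
    | succ k ih =>
      intro j hj hjk
      rcases Nat.lt_or_ge j (k + 1) with h1 | h1
      · exact ih j hj (by omega)
      · obtain rfl : j = k + 1 := by omega
        have hk : k < n := by omega
        have h2 : (pathOf σ).Adj (σ.symm ⟨k, hk⟩) (σ.symm ⟨k + 1, hj⟩) := by
          rw [pathOf_adj]
          simp
        rw [h, pathOf_adj, ih k hk le_rfl] at h2
        simp only [Equiv.apply_symm_apply] at h2
        rcases h2 with h2 | h2
        · have h3 : τ (σ.symm ⟨k + 1, hj⟩) = ⟨k + 1, hj⟩ := Fin.ext h2.symm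
          apply τ.injective
          rw [h3, Equiv.apply_symm_apply]
        · exfalso
          have hk1 : (τ (σ.symm ⟨k + 1, hj⟩)).val < n := (τ (σ.symm ⟨k + 1, hj⟩)).isLt
          have h4 := ih (τ (σ.symm ⟨k + 1, hj⟩)).val hk1 (by omega)
          have h5 : (⟨(τ (σ.symm ⟨k + 1, hj⟩)).val, hk1⟩ : Fin n) = τ (σ.symm ⟨k + 1, hj⟩) := rfl
          rw [h5, Equiv.symm_apply_apply] at h4
          have h6 := σ.symm.injective h4
          have h7 := congrArg Fin.val h6
          simp only at h7
          omega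
  have h8 : σ.symm = τ.symm := by
    ext i
    rw [show i = ⟨i.val, i.isLt⟩ from rfl, key i.val i.val i.isLt le_rfl]
  have := congrArg Equiv.symm h8
  simpa using this

/-- at least `(n-1)!` spider forests -/
theorem card_spider_ge {n : ℕ} (hn : 3 ≤ n) :
    n.factorial ≤ n * ((univ : Finset (SimpleGraph (Fin n))).filter
      (fun G => IsSpiderForest G)).card := by
  have h0 : 0 < n := by omega
  have h1 : Fintype.card (Equiv.Perm (Fin n)) = n.factorial := by
    rw [Fintype.card_perm, Fintype.card_fin]
  rw [← h1, ← card_univ]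
  have h2 : ((univ : Finset (Fin n)) ×ˢ ((univ : Finset (SimpleGraph (Fin n))).filter
      (fun G => IsSpiderForest G))).card = n * ((univ : Finset (SimpleGraph (Fin n))).filter
      (fun G => IsSpiderForest G)).card := by
    rw [card_product, card_univ, Fintype.card_fin]
  rw [← h2]
  apply Finset.card_le_card_of_injOn (fun σ => (σ.symm ⟨0, h0⟩, pathOf σ))
  · intro σ _
    simp only [coe_product, Set.mem_prod, mem_coe, mem_univ, true_and, mem_filter]
    exact spider_pathOf hn σ
  · intro σ _ τ _ hst
    simp only [Prod.mk.injEq] at hst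
    exact pathOf_inj h0 σ τ hst.2 hst.1

end Pool.SpA57
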