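import Mathlib

set_option autoImplicit false

namespace Pool.SpA57

open Finset Classical

variable {V : Type*} [Fintype V]

/-- roots of a parent function -/
noncomputable def rootS (p : V → V) : Finset V := univ.filter (fun v => p v = v)

/-- first vertices of the legs -/
noncomputable def firstS (p : V → V) : Finset V := univ.filter (fun v => p v ≠ v ∧ p (p v) = p v)

/-- non-roots have at most one child -/
def GoodP (p : V → V) : Prop :=
  ∀ v w, p v ≠ v → p w ≠ w → p v = p w → p (p v) ≠ p v → v = w

lemma mem_rootS {p : V → V} {v : V} : v ∈ rootS p ↔ p v = v := by simp [rootS]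

lemma mem_firstS {p : V → V} {v : V} : v ∈ firstS p ↔ p v ≠ v ∧ p (p v) = p v := by
  simp [firstS]

lemma disj_rf (p : V → V) : Disjoint (rootS p) (firstS p) := by
  rw [Finset.disjoint_left]
  intro v hv hv'
  exact (mem_firstS.1 hv').1 (mem_rootS.1 hv)

lemma card_fiber (R A : Finset V) :
    (univ.filter (fun p : V → V => GoodP p ∧ rootS p = R ∧ firstS p = A)).card ≤
      R.card ^ A.card * (Fintype.card V - R.card).descFactorial
        (Fintype.card V - R.card - A.card) := by
  by_cases hd : Disjoint R A
  · have h1 : Fintype.card (A → R) = R.card ^ A.card := by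
      rw [Fintype.card_fun, Fintype.card_coe, Fintype.card_coe]
    have h2 : Fintype.card ({v // v ∈ (R ∪ A)ᶜ} ↪ {v // v ∈ Rᶜ}) =
        (Fintype.card V - R.card).descFactorial (Fintype.card V - R.card - A.card) := by
      rw [Fintype.card_embedding_eq, Fintype.card_coe, Fintype.card_coe, card_compl, card_compl,
        card_union_of_disjoint hd, Nat.sub_add_eq]
    rw [← h1, ← h2, ← Fintype.card_prod]
    rw [← Fintype.card_coe]
    have hR : ∀ p : V → V, rootS p = R → ∀ v, v ∈ R ↔ p v = v := by
      rintro p rfl v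
      exact mem_rootS
    have hAA : ∀ p : V → V, firstS p = A → ∀ v, v ∈ A ↔ p v ≠ v ∧ p (p v) = p v := by
      rintro p rfl v
      exact mem_firstS
    refine Fintype.card_le_of_injective (fun p =>
      (fun a => ⟨p.1 a.1, ?_⟩,
        ⟨fun v => ⟨p.1 v.1, ?_⟩, ?_⟩)) ?_
    · have hp := (mem_filter.1 p.2).2
      have ha : a.1 ∈ firstS p.1 := by rw [hp.2.2]; exact a.2
      exact (hR p.1 hp.2.1 _).2 (mem_firstS.1 ha).2
    · have hp := (mem_filter.1 p.2).2
      have hv := v.2
      rw [mem_compl, mem_union, hR p.1 hp.2.1, hAA p.1 hp.2.2] at hv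
      push Not at hv
      rw [mem_compl, hR p.1 hp.2.1]
      exact hv.2 hv.1
    · intro v w hvw
      have hp := (mem_filter.1 p.2).2
      have hv := v.2
      have hw := w.2
      rw [mem_compl, mem_union, hR p.1 hp.2.1, hAA p.1 hp.2.2] at hv hw
      push Not at hv hw
      exact Subtype.ext (hp.1 _ _ hv.1 hw.1 (congrArg Subtype.val hvw) (hv.2 hv.1))
    · intro p q hpq
      have hp := (mem_filter.1 p.2).2
      have hq := (mem_filter.1 q.2).2
      rw [Prod.mk.injEq] at hpq
      apply Subtype.ext
      funext v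
      by_cases hvR : v ∈ R
      · have h3 : p.1 v = v := (hR p.1 hp.2.1 v).1 hvR
        have h4 : q.1 v = v := (hR q.1 hq.2.1 v).1 hvR
        rw [h3, h4]
      · by_cases hvA : v ∈ A
        · exact congrArg Subtype.val (congrFun hpq.1 ⟨v, hvA⟩)
        · have hv : v ∈ (R ∪ A)ᶜ := by
            rw [mem_compl, mem_union]
            tauto
          have := congrArg (fun e : ({v // v ∈ (R ∪ A)ᶜ} ↪ {v // v ∈ Rᶜ}) => (e ⟨v, hv⟩).1) hpq.2
          exact this
  · have : (univ.filter (fun p : V → V => GoodP p ∧ rootS p = R ∧ firstS p = A)) = ∅ := by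
      rw [filter_eq_empty_iff]
      rintro p - ⟨-, h1, h2⟩
      exact hd (h1 ▸ h2 ▸ disj_rf p)
    rw [this, card_empty]
    exact Nat.zero_le _

lemma card_fiber_le (R A : Finset V) (s : ℝ) (hs : 1 ≤ s) (N0 : ℕ) (hA : N0 ≤ A.card) :
    ((univ.filter (fun p : V → V => GoodP p ∧ rootS p = R ∧ firstS p = A)).card : ℝ) ≤
      (Fintype.card V - R.card).factorial * Real.exp (s * R.card) / s ^ N0 := by
  have hs0 : 0 < s := by linarith
  by_cases hem : (univ.filter (fun p : V → V => GoodP p ∧ rootS p = R ∧ firstS p = A)) = ∅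
  · rw [hem, card_empty, Nat.cast_zero]
    positivity
  obtain ⟨p, hp⟩ := Finset.nonempty_iff_ne_empty.2 hem
  have hp := (mem_filter.1 hp).2
  have hd : Disjoint R A := hp.2.1 ▸ hp.2.2 ▸ disj_rf p
  have hle : A.card ≤ Fintype.card V - R.card := by
    have h1 := Finset.card_le_univ (R ∪ A)
    rw [card_union_of_disjoint hd] at h1
    omega
  have h1 := card_fiber R A
  have h2 : (A.card).factorial * (Fintype.card V - R.card).descFactorial
      (Fintype.card V - R.card - A.card) = (Fintype.card V - R.card).factorial := by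
    have := Nat.factorial_mul_descFactorial
      (n := Fintype.card V - R.card) (k := Fintype.card V - R.card - A.card) (by omega)
    rwa [show Fintype.card V - R.card - (Fintype.card V - R.card - A.card) = A.card by omega]
      at this
  have h1' : ((univ.filter (fun p : V → V => GoodP p ∧ rootS p = R ∧ firstS p = A)).card : ℝ) ≤
      (R.card : ℝ) ^ A.card * ((Fintype.card V - R.card).descFactorial
        (Fintype.card V - R.card - A.card) : ℝ) := by
    exact_mod_cast h1
  have h2' : ((A.card).factorial : ℝ) * ((Fintype.card V - R.card).descFactorial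
      (Fintype.card V - R.card - A.card) : ℝ) = ((Fintype.card V - R.card).factorial : ℝ) := by
    exact_mod_cast h2
  have hf : (0 : ℝ) < ((A.card).factorial : ℝ) := by exact_mod_cast Nat.factorial_pos _
  have h3 : ((s * R.card) ^ A.card) / (A.card).factorial ≤ Real.exp (s * R.card) :=
    Real.pow_div_factorial_le_exp _ (by positivity) _
  have h4 : s ^ N0 ≤ s ^ A.card := pow_le_pow_right₀ hs hA
  rw [le_div_iff₀ (by positivity)]
  rw [mul_pow, div_le_iff₀ hf] at h3
  set D : ℝ := ((Fintype.card V - R.card).descFactorial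
      (Fintype.card V - R.card - A.card) : ℝ) with hD
  have hD0 : 0 ≤ D := by positivity
  calc ((univ.filter (fun p : V → V => GoodP p ∧ rootS p = R ∧ firstS p = A)).card : ℝ) * s ^ N0
      ≤ ((R.card : ℝ) ^ A.card * D) * s ^ A.card := by
        apply mul_le_mul h1' h4 (by positivity) (by positivity)
    _ = D * (s ^ A.card * (R.card : ℝ) ^ A.card) := by ring
    _ ≤ D * (Real.exp (s * R.card) * (A.card).factorial) := by
        exact mul_le_mul_of_nonneg_left h3 hD0
    _ = ((A.card).factorial * D) * Real.exp (s * R.card) := by ring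
    _ = _ := by rw [h2']

/-- number of rooted forms with at least `N0` legs -/
theorem card_many (s : ℝ) (hs : 1 ≤ s) (N0 : ℕ) :
    ((univ.filter (fun p : V → V => GoodP p ∧ N0 ≤ (firstS p).card)).card : ℝ) ≤
      (Fintype.card V).factorial * 2 ^ (Fintype.card V) * Real.exp (Real.exp s) / s ^ N0 := by
  have hs0 : 0 < s := by linarith
  set n := Fintype.card V with hn
  have h1 : (univ.filter (fun p : V → V => GoodP p ∧ N0 ≤ (firstS p).card)).card ≤
      ∑ R : Finset V, ∑ A ∈ (univ : Finset (Finset V)).filter (fun A => N0 ≤ A.card),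
        (univ.filter (fun p : V → V => GoodP p ∧ rootS p = R ∧ firstS p = A)).card := by
    rw [← Finset.sum_product']
    have : (univ.filter (fun p : V → V => GoodP p ∧ N0 ≤ (firstS p).card)) ⊆
        ((univ : Finset (Finset V)) ×ˢ (univ : Finset (Finset V)).filter (fun A => N0 ≤ A.card)).biUnion
          (fun RA => univ.filter (fun p : V → V => GoodP p ∧ rootS p = RA.1 ∧ firstS p = RA.2)) := by
      intro p hp
      have hp := (mem_filter.1 hp).2
      rw [mem_biUnion]
      refine ⟨(rootS p, firstS p), ?_, ?_⟩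
      · rw [mem_product]
        exact ⟨mem_univ _, mem_filter.2 ⟨mem_univ _, hp.2⟩⟩
      · exact mem_filter.2 ⟨mem_univ _, hp.1, rfl, rfl⟩
    exact (card_le_card this).trans card_biUnion_le
  have h2 : ((univ.filter (fun p : V → V => GoodP p ∧ N0 ≤ (firstS p).card)).card : ℝ) ≤
      ∑ R : Finset V, (2 : ℝ) ^ n * ((n - R.card).factorial * Real.exp (s * R.card) / s ^ N0) := by
    refine (Nat.cast_le.2 h1).trans ?_
    rw [Nat.cast_sum]
    apply Finset.sum_le_sum
    intro R _
    rw [Nat.cast_sum]
    have h3 : ∀ A ∈ (univ : Finset (Finset V)).filter (fun A => N0 ≤ A.card),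
        ((univ.filter (fun p : V → V => GoodP p ∧ rootS p = R ∧ firstS p = A)).card : ℝ) ≤
        (n - R.card).factorial * Real.exp (s * R.card) / s ^ N0 := by
      intro A hA
      exact card_fiber_le R A s hs N0 (mem_filter.1 hA).2
    refine (Finset.sum_le_card_nsmul _ _ _ h3).trans ?_
    rw [nsmul_eq_mul]
    apply mul_le_mul_of_nonneg_right _ (by positivity)
    have h4 : ((univ : Finset (Finset V)).filter (fun A => N0 ≤ A.card)).card ≤ 2 ^ n := by
      refine (card_filter_le _ _).trans ?_
      rw [card_univ, Fintype.card_finset]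
    exact_mod_cast h4
  refine h2.trans ?_
  have h5 : ∑ R : Finset V, (2 : ℝ) ^ n * ((n - R.card).factorial * Real.exp (s * R.card) / s ^ N0)
      = ∑ m ∈ range (n + 1), (n.choose m) • ((2 : ℝ) ^ n * ((n - m).factorial * Real.exp (s * m) / s ^ N0)) := by
    have := Finset.sum_powerset_apply_card (x := (univ : Finset V))
      (fun m => (2 : ℝ) ^ n * ((n - m).factorial * Real.exp (s * m) / s ^ N0))
    rw [Finset.powerset_univ, card_univ] at this
    exact this
  rw [h5]
  have h6 : ∀ m ∈ range (n + 1), (n.choose m) •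
      ((2 : ℝ) ^ n * ((n - m).factorial * Real.exp (s * m) / s ^ N0)) =
      (n.factorial * 2 ^ n / s ^ N0) * ((Real.exp s) ^ m / m.factorial) := by
    intro m hm
    have hm' : m ≤ n := Nat.lt_succ_iff.1 (mem_range.1 hm)
    have h7 := Nat.choose_mul_factorial_mul_factorial hm'
    have h7' : (n.choose m : ℝ) * m.factorial * (n - m).factorial = n.factorial := by
      exact_mod_cast h7
    have h8 : Real.exp (s * m) = (Real.exp s) ^ m := by
      rw [← Real.exp_nat_mul]
      ring_nf
    have hmf : (m.factorial : ℝ) ≠ 0 := by exact_mod_cast Nat.factorial_ne_zero m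
    have hsN : s ^ N0 ≠ 0 := (pow_pos hs0 _).ne'
    rw [nsmul_eq_mul, h8, ← h7']
    field_simp
  rw [Finset.sum_congr rfl h6, ← Finset.mul_sum]
  have h9 : ∑ m ∈ range (n + 1), (Real.exp s) ^ m / m.factorial ≤ Real.exp (Real.exp s) :=
    Real.sum_le_exp_of_nonneg (Real.exp_pos s).le _
  calc (n.factorial * 2 ^ n / s ^ N0 : ℝ) * ∑ m ∈ range (n + 1), (Real.exp s) ^ m / m.factorial
      ≤ (n.factorial * 2 ^ n / s ^ N0 : ℝ) * Real.exp (Real.exp s) := by
        apply mul_le_mul_of_nonneg_left h9 (by positivity)
    _ = _ := by ring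

end Pool.SpA57
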